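import Pool.Agent.R19.QS.Ext

/-! Structures whose value groups have index at most eight outside of the core. -/

set_option autoImplicit false

namespace Pool.Agent.R19.QS

open Pool.Agent.H315R3.ETC Pool.Agent.TH673.VG

section
variable {S : QData} (h : IsQuat S)

include h in
lemma q_mul_left {x y z : S.G} (hx : S.q x z = S.zero) : S.q (x * y) z = S.q y z := by
  rw [h.qs2, h.qs2 y]
  exact q_shift h _ (by rw [h.qs2]; exact hx)

include h in
/-- a homomorphism which vanishes on a subgroup and is prescribed at one point outside -/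
lemma exists_char {A : Subgroup S.G} {z : S.G} (hz : z ∉ A) (c : ZMod 2) :
    ∃ f : S.G → ZMod 2, (∀ x y, f (x * y) = f x + f y) ∧ (∀ n ∈ A, f n = 0) ∧ f z = c := by
  classical
  have h22 : ∀ u : ZMod 2, u + u = 0 := by decide
  have hcase : ∀ x ∈ Subgroup.zpowers z, x = 1 ∨ x = z := by
    intro x hx
    obtain ⟨n, rfl⟩ := Subgroup.mem_zpowers_iff.1 hx
    rcases Int.even_or_odd' n with ⟨m, rfl | rfl⟩
    · left
      rw [zpow_mul, zpow_two, h.exp2, one_zpow]
    · right
      rw [zpow_add, zpow_mul, zpow_two, h.exp2, one_zpow, one_mul, zpow_one]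
  obtain ⟨f, f1, f2, f3⟩ := hom_glue h A (Subgroup.zpowers z) (fun x => if x ∈ A then 0 else c)
    (fun x hx y hy => by
      rcases hcase x hx with rfl | rfl <;> rcases hcase y hy with rfl | rfl
      · simp [A.one_mem]
      · simp [A.one_mem]
      · simp [A.one_mem]
      · rw [h.exp2, if_pos A.one_mem, if_neg hz, h22])
    (fun x _ hx => if_pos hx)
  exact ⟨f, f1, f2, by rw [f3 z (Subgroup.mem_zpowers z), if_neg hz]⟩

variable [Finite S.G]

include h in
/-- two different cosets of `V(a)` are met by `V(ak)` -/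
lemma stepTwo_of_common {H : Subgroup S.G} {a z z' k : S.G} (ha : a ∉ H)
    (ha4 : (D h a).index = 4) (hz : z ∉ D h a) (hz' : z' ∉ D h a) (hzz : z * z' ∉ D h a)
    (hk : k ∈ H) (h1 : S.q (a * k) z = S.zero) (h2 : S.q (a * k) z' = S.zero) : StepTwo S H := by
  have e1 := two_mul_index (lt_sup_zpowers hz)
  have e2 : D h a ⊔ Subgroup.zpowers z < D h a ⊔ D h (a * k) := by
    refine lt_of_le_of_ne (sup_le le_sup_left (by
      rw [Subgroup.zpowers_le]
      exact Subgroup.mem_sup_right h1)) fun e => ?_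
    have h3 : z' ∈ D h a ⊔ Subgroup.zpowers z := by
      rw [e]
      exact Subgroup.mem_sup_right h2
    rcases mem_sup_z h h3 with h4 | h4
    · exact hz' h4
    · apply hzz
      rw [mul_comm]
      exact h4
  have e3 := two_mul_index e2
  have e4 := index_pos (D h a ⊔ D h (a * k))
  have e5 : D h a ⊔ D h (a * k) = ⊤ := Subgroup.index_eq_one.1 (by omega)
  refine ⟨a, ha, k, hk, fun l _ x _ => Or.inr ?_⟩
  have hx : x ∈ D h a ⊔ D h (a * k) := by rw [e5]; trivial
  obtain ⟨v, hv, w, hw, e⟩ := Subgroup.mem_sup.1 hx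
  exact ⟨v, w, hv, hw, e⟩

include h in
/-- trouble comes from the elements of `V(a)` -/
lemma stepTwo_of_out {H : Subgroup S.G} {a z g : S.G} (ha : a ∉ H)
    (ha4 : (D h a).index = 4) (hg : g ∈ H) (hga : g ∉ D h a) (hz : z ∉ D h a ⊔ H)
    (h1 : S.q (a * g) z = S.zero) : StepTwo S H := by
  have e1 := two_mul_index (lt_sup_zpowers hga)
  have hgs : g ∈ D h a ⊔ D h (a * g) := by
    have e : g = (S.neg * a) * (S.neg * (a * g)) := by
      rw [mul_mul_mul_comm, h.exp2, one_mul, ← mul_assoc, h.exp2, one_mul]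
    have h1 : (S.neg * a) * (S.neg * (a * g)) ∈ D h a ⊔ D h (a * g) :=
      Subgroup.mul_mem_sup (h.qs1 a) (h.qs1 (a * g))
    rwa [← e] at h1
  have e2 : D h a ⊔ Subgroup.zpowers g < D h a ⊔ D h (a * g) := by
    refine lt_of_le_of_ne (sup_le le_sup_left (by rwa [Subgroup.zpowers_le])) fun e => hz ?_
    have h3 : z ∈ D h a ⊔ Subgroup.zpowers g := by
      rw [e]; exact Subgroup.mem_sup_right h1
    have h4 : D h a ⊔ Subgroup.zpowers g ≤ D h a ⊔ H :=
      sup_le le_sup_left (by
        rw [Subgroup.zpowers_le]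
        exact Subgroup.mem_sup_right hg)
    exact h4 h3
  have e3 := two_mul_index e2
  have e4 := index_pos (D h a ⊔ D h (a * g))
  have e5 : D h a ⊔ D h (a * g) = ⊤ := Subgroup.index_eq_one.1 (by omega)
  refine ⟨a, ha, g, hg, fun l _ x _ => Or.inr ?_⟩
  have hx : x ∈ D h a ⊔ D h (a * g) := by rw [e5]; trivial
  obtain ⟨v, hv, w, hw, e⟩ := Subgroup.mem_sup.1 hx
  exact ⟨v, w, hv, hw, e⟩

include h in
/-- the case that `H` is not contained in `V(a)` -/
theorem pairs_of_not_le {H : Subgroup S.G} (hcl : Closed S H) {a k0 : S.G} (ha : a ∉ H)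
    (ha4 : (D h a).index = 4) (hk0 : k0 ∈ H) (hk0a : k0 ∉ D h a)
    (h8 : ∀ z : S.G, z ∉ H → (D h z).index ≤ 8) (hno : ¬ StepTwo S H) : Pairs h H a := by
  intro z z' g g' hz hz' hg hg' hgz hgz'
  have hin : ∀ z g : S.G, z ∉ D h a ⊔ H → g ∈ H → S.q (a * g) z = S.zero → g ∈ D h a ⊓ H := by
    intro z g hz hg hgz
    refine ⟨?_, hg⟩
    by_contra hc
    exact hno (stepTwo_of_out h ha ha4 hg hc hz hgz)
  have htwo : ∀ z g : S.G, z ∉ D h a ⊔ H → g ∈ H → S.q (a * g) z = S.zero →
      TwoOn S (D h a ⊓ H) z := by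
    intro z g hz hg hgz u hu v hv
    by_contra hcon
    push Not at hcon
    obtain ⟨hu0, hv0, huv⟩ := hcon
    have hzH : z ∉ H := fun hc => hz (Subgroup.mem_sup_right hc)
    have h1 := two_mul_index (lt_sup_zpowers (show u ∉ D h z from hu0))
    have h2 : v ∉ D h z ⊔ Subgroup.zpowers u := by
      intro hc
      rcases mem_sup_z h hc with hc | hc
      · exact hv0 hc
      · apply huv
        rw [mul_comm]
        exact hc
    have h3 := two_mul_index (lt_sup_zpowers h2)
    have h4 := h8 z hzH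
    set L := D h z ⊔ Subgroup.zpowers u ⊔ Subgroup.zpowers v with hL
    have hLle : L ≤ D h z ⊔ H := by
      refine sup_le (sup_le le_sup_left ?_) ?_
      · rw [Subgroup.zpowers_le]
        exact Subgroup.mem_sup_right hu.2
      · rw [Subgroup.zpowers_le]
        exact Subgroup.mem_sup_right hv.2
    have hLeq : L = D h z ⊔ H := by
      by_contra hne
      have h5 := two_mul_index (lt_of_le_of_ne hLle hne)
      have h6 := index_pos (D h z ⊔ H)
      exact closed_sup h hcl hzH (Subgroup.index_eq_one.1 (by omega))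
    have hk0L : k0 ∈ L := by
      rw [hLeq]
      exact Subgroup.mem_sup_right hk0
    -- an element of `V(z) ∩ H` outside `V(a)`
    obtain ⟨k1, hk1, hk1z, hk1a⟩ : ∃ k1 ∈ H, S.q z k1 = S.zero ∧ k1 ∉ D h a := by
      have key : ∀ w ∈ D h a ⊓ H, k0 * w ∉ D h a := by
        intro w hw hc
        apply hk0a
        have := (D h a).mul_mem hc hw.1
        rwa [mul_cancel h] at this
      rcases mem_sup_z h hk0L with h5 | h5
      · rcases mem_sup_z h h5 with h6 | h6
        · exact ⟨k0, hk0, h6, hk0a⟩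
        · exact ⟨k0 * u, H.mul_mem hk0 hu.2, h6, key u hu⟩
      · rcases mem_sup_z h h5 with h6 | h6
        · exact ⟨k0 * v, H.mul_mem hk0 hv.2, h6, key v hv⟩
        · refine ⟨k0 * v * u, H.mul_mem (H.mul_mem hk0 hv.2) hu.2, h6, ?_⟩
          rw [mul_assoc]
          exact key _ (Subgroup.mul_mem _ hv hu)
    have h7 : S.q (a * (g * k1)) z = S.zero := by
      rw [h.qs2, ← mul_assoc]
      exact p_mul h (by rw [h.qs2]; exact hgz) hk1z
    have h8' := (hin z (g * k1) hz (H.mul_mem hg hk1) h7).1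
    have h9 := (hin z g hz hg hgz).1
    apply hk1a
    have := (D h a).mul_mem h9 h8'
    rwa [← mul_assoc, h.exp2, one_mul] at this
  obtain ⟨k, hk, e1, e2⟩ := common_of_two h (hin z g hz hg hgz) (hin z' g' hz' hg' hgz') hgz hgz'
    (fun hc => hz (Subgroup.mem_sup_left hc)) (fun hc => hz' (Subgroup.mem_sup_left hc))
    (htwo z g hz hg hgz) (htwo z' g' hz' hg' hgz')
  exact ⟨k, hk.2, e1, e2⟩

omit [Finite S.G] in
include h in
/-- the extension if not all three cosets of `V(a)` are met -/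
theorem canExt_of_no_three {H : Subgroup S.G} {a : S.G} (ha : a ∉ H)
    (h3 : ∀ z1 z2 z3 g1 g2 g3 : S.G, g1 ∈ H → g2 ∈ H → g3 ∈ H → S.q (a * g1) z1 = S.zero →
      S.q (a * g2) z2 = S.zero → S.q (a * g3) z3 = S.zero → z1 ∉ D h a → z2 ∉ D h a →
      z3 ∉ D h a → z1 * z2 ∉ D h a → z1 * z3 ∉ D h a → z2 * z3 ∉ D h a → False) :
    CanExt S H := by
  intro χ hχ
  refine ⟨a, ha, ?_⟩
  have hχ' := hχ
  obtain ⟨c1, c2, c3⟩ := hχ'
  have h22 : ∀ u : ZMod 2, u + u = 0 := by decide
  have hsq : ∀ x y : S.G, x * (x * y) = y := fun x y => by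
    rw [← mul_assoc, h.exp2, one_mul]
  have fact2 : ∀ g ∈ H, ∀ b ∈ D h a, S.q (a * g) b = S.zero → χ g b = 0 := by
    intro g hg b hb hgb
    refine c3 g hg b ?_
    rw [← (q_eq_iff h a g b).2 hgb]
    exact hb
  have fact4 : ∀ g ∈ H, ∀ g' ∈ H, ∀ z z' : S.G, S.q (a * g) z = S.zero →
      S.q (a * g') z' = S.zero → z * z' ∈ D h a → χ g z = χ g' z' := by
    intro g hg g' hg' z z' hz hz' hzz
    refine sy_eq h hχ hg hg' ?_
    rw [← (q_eq_iff h a g z).2 hz, ← (q_eq_iff h a g' z').2 hz']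
    exact (h.qs3 a z z').2 hzz
  have fin : ∀ f : S.G → ZMod 2, (∀ x y, f (x * y) = f x + f y) → (∀ n ∈ D h a, f n = 0) →
      (∀ g ∈ H, ∀ b : S.G, b ∉ D h a → S.q (a * g) b = S.zero → f b = χ g b) →
      ∃ χ1 : S.G → S.G → ZMod 2, Sy S (H ⊔ Subgroup.zpowers a) χ1 ∧
        ∀ x ∈ H, ∀ b, χ1 x b = χ x b := by
    intro f F1 F2 F3
    refine extend_of_hom h H χ hχ a ha f F1 fun g hg b hb => ?_
    by_cases hba : b ∈ D h a
    · rw [F2 b hba, fact2 g hg b hba hb]
    · exact F3 g hg b hba hb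
  by_cases t1 : ∃ z1 g1 : S.G, g1 ∈ H ∧ S.q (a * g1) z1 = S.zero ∧ z1 ∉ D h a
  · obtain ⟨z1, g1, hg1, hq1, hz1⟩ := t1
    obtain ⟨f1, F1, F2, F3⟩ := exists_char h hz1 (χ g1 z1)
    by_cases t2 : ∃ z2 g2 : S.G, g2 ∈ H ∧ S.q (a * g2) z2 = S.zero ∧ z2 ∉ D h a ∧
        z1 * z2 ∉ D h a
    · obtain ⟨z2, g2, hg2, hq2, hz2, hz12⟩ := t2
      have hz2' : z2 ∉ D h a ⊔ Subgroup.zpowers z1 := by
        intro hc
        rcases mem_sup_z h hc with hc | hc
        · exact hz2 hc
        · apply hz12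
          rw [mul_comm]
          exact hc
      obtain ⟨f2, G1, G2, G3⟩ := exists_char h hz2' (χ g2 z2 + f1 z2)
      refine fin (fun x => f1 x + f2 x) (fun x y => ?_) (fun n hn => ?_) ?_
      · show f1 (x * y) + f2 (x * y) = (f1 x + f2 x) + (f1 y + f2 y)
        rw [F1, G1]; ring
      · show f1 n + f2 n = 0
        rw [F2 n hn, G2 n (Subgroup.mem_sup_left hn), add_zero]
      · intro g hg b hb hgb
        show f1 b + f2 b = χ g b
        by_cases hb1 : z1 * b ∈ D h a
        · have e : b = z1 * (z1 * b) := (hsq z1 b).symm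
          have e1 : f1 b = f1 z1 := by
            rw [e, F1, F2 _ hb1, add_zero]
          have e2 : f2 b = 0 := by
            rw [e, G1, G2 _ (Subgroup.mem_sup_left hb1), add_zero]
            exact G2 z1 (Subgroup.mem_sup_right (Subgroup.mem_zpowers z1))
          rw [e1, e2, add_zero, F3]
          exact fact4 g1 hg1 g hg z1 b hq1 hgb hb1
        · by_cases hb2 : z2 * b ∈ D h a
          · have e : b = z2 * (z2 * b) := (hsq z2 b).symm
            have e1 : f1 b = f1 z2 := by
              rw [e, F1, F2 _ hb2, add_zero]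
            have e2 : f2 b = f2 z2 := by
              rw [e, G1, G2 _ (Subgroup.mem_sup_left hb2), add_zero]
            rw [e1, e2, G3, ← fact4 g2 hg2 g hg z2 b hq2 hgb hb2]
            linear_combination h22 (f1 z2)
          · exact (h3 z1 z2 b g1 g2 g hg1 hg2 hg hq1 hq2 hgb hz1 hz2 hb hz12 hb1 hb2).elim
    · push Not at t2
      refine fin f1 F1 F2 fun g hg b hb hgb => ?_
      have hb1 := t2 b g hg hgb hb
      have e : b = z1 * (z1 * b) := (hsq z1 b).symm
      have e1 : f1 b = f1 z1 := by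
        rw [e, F1, F2 _ hb1, add_zero]
      rw [e1, F3]
      exact fact4 g1 hg1 g hg z1 b hq1 hgb hb1
  · push Not at t1
    refine fin (fun _ => 0) (fun _ _ => (add_zero 0).symm) (fun _ _ => rfl) ?_
    intro g hg b hb hgb
    exact (hb (t1 b g hg hgb)).elim

/-- the elements `k` of `H` such that `ak` is orthogonal to `z` -/
def Rs (S : QData) (H : Subgroup S.G) (a z : S.G) : Set S.G :=
  {k | k ∈ H ∧ S.q (a * k) z = S.zero}

omit [Finite S.G] in
include h in
lemma rs_eq {H : Subgroup S.G} {a z g : S.G} (hg : g ∈ Rs S H a z) :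
    Rs S H a z = (fun l => g * l) '' ((D h z ⊓ H : Subgroup S.G) : Set S.G) := by
  ext k
  constructor
  · rintro ⟨hk, hkz⟩
    refine ⟨g * k, ⟨?_, H.mul_mem hg.1 hk⟩, ?_⟩
    · show S.q z (g * k) = S.zero
      have h1 : S.q z (a * g) = S.zero := by rw [h.qs2]; exact hg.2
      have h2 : S.q z (a * k) = S.zero := by rw [h.qs2]; exact hkz
      have h3 := p_mul h h1 h2
      rwa [mul_mul_mul_comm, h.exp2, one_mul] at h3
    · show g * (g * k) = k
      rw [← mul_assoc, h.exp2, one_mul]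
  · rintro ⟨l, ⟨hl, hlH⟩, rfl⟩
    refine ⟨H.mul_mem hg.1 hlH, ?_⟩
    have hl' : S.q z l = S.zero := hl
    show S.q (a * (g * l)) z = S.zero
    rw [h.qs2, ← mul_assoc]
    exact p_mul h (by rw [h.qs2]; exact hg.2) hl'

omit [Finite S.G] in
lemma ncard_coset (g : S.G) (A : Subgroup S.G) :
    ((fun l => g * l) '' (A : Set S.G)).ncard = Nat.card A := by
  rw [Set.ncard_image_of_injective _ (mul_right_injective g)]
  rfl

include h in
lemma card_sub {H : Subgroup S.G} (hcl : Closed S H) {z : S.G} (hz : z ∉ H)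
    (h8 : (D h z).index ≤ 8) : Nat.card H ≤ 4 * Nat.card (D h z ⊓ H : Subgroup S.G) := by
  have h1 := Subgroup.card_mul_index ((D h z).subgroupOf H)
  have h2 : ((D h z).subgroupOf H).index = (D h z).relIndex H := rfl
  have h3 : (D h z).relIndex (D h z ⊔ H) = (D h z).relIndex H :=
    Subgroup.relIndex_sup_left H (D h z)
  have h4 := Subgroup.relIndex_mul_index (le_sup_left : D h z ≤ D h z ⊔ H)
  have h5 : 2 ≤ (D h z ⊔ H).index := by
    have e1 := index_pos (D h z ⊔ H)
    have e2 : (D h z ⊔ H).index ≠ 1 := fun e => closed_sup h hcl hz (Subgroup.index_eq_one.1 e)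
    omega
  have h6 : (D h z).relIndex H * 2 ≤ 8 := by
    calc (D h z).relIndex H * 2 ≤ (D h z).relIndex H * (D h z ⊔ H).index :=
          Nat.mul_le_mul_left _ h5
      _ = (D h z).index := by rw [← h3, h4]
      _ ≤ 8 := h8
  have h7 : Nat.card ((D h z).subgroupOf H) = Nat.card (D h z ⊓ H : Subgroup S.G) := by
    rw [← Subgroup.inf_subgroupOf_right]
    exact Nat.card_congr (Subgroup.subgroupOfEquivOfLe inf_le_right).toEquiv
  rw [← h1, h7, h2, mul_comm]
  exact Nat.mul_le_mul_right _ (by omega)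

include h in
lemma rs_card {H : Subgroup S.G} (hcl : Closed S H) {a z g : S.G} (hz : z ∉ H)
    (h8 : (D h z).index ≤ 8) (hg : g ∈ Rs S H a z) : Nat.card H ≤ 4 * (Rs S H a z).ncard := by
  rw [rs_eq h hg, ncard_coset]
  exact card_sub h hcl hz h8

include h in
lemma rs_half {H : Subgroup S.G} {a z z' g : S.G} (_ : g ∈ Rs S H a z)
    (hne : ¬ Rs S H a z ⊆ Rs S H a z') :
    2 * (Rs S H a z ∩ Rs S H a z').ncard ≤ (Rs S H a z).ncard := by
  by_cases hem : (Rs S H a z ∩ Rs S H a z').Nonempty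
  · obtain ⟨k, hk, hk'⟩ := hem
    have e1 : Rs S H a z ∩ Rs S H a z' =
        (fun l => k * l) '' (((D h z ⊓ H) ⊓ (D h z' ⊓ H) : Subgroup S.G) : Set S.G) := by
      rw [rs_eq h hk, rs_eq h hk', ← Set.image_inter (mul_right_injective k)]
      rfl
    rw [e1, rs_eq h hk, ncard_coset, ncard_coset]
    set A := D h z ⊓ H
    set B := A ⊓ (D h z' ⊓ H) with hB
    have hle : B ≤ A := inf_le_left
    have hBA : B ≠ A := by
      intro e
      apply hne
      rw [rs_eq h hk, rs_eq h hk']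
      refine Set.image_mono fun x hx => ?_
      have hxB : x ∈ B := by rw [e]; exact hx
      exact hxB.2
    obtain ⟨m, hm⟩ := Subgroup.card_dvd_of_le hle
    have hBpos : 0 < Nat.card B := Nat.card_pos
    have hApos : 0 < Nat.card A := Nat.card_pos
    have hm1 : m ≠ 1 := by
      rintro rfl
      rw [mul_one] at hm
      exact hBA (Subgroup.eq_of_le_of_card_ge hle hm.le)
    have hm0 : m ≠ 0 := by
      rintro rfl
      rw [mul_zero] at hm
      omega
    rw [hm, mul_comm]
    exact Nat.mul_le_mul_left _ (by omega)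
  · rw [Set.not_nonempty_iff_eq_empty] at hem
    rw [hem, Set.ncard_empty]
    omega

include h in
lemma rs_union {H : Subgroup S.G} (hcl : Closed S H) {a z z' g g' : S.G} (hz : z ∉ H)
    (hz' : z' ∉ H) (h8 : (D h z).index ≤ 8) (h8' : (D h z').index ≤ 8)
    (hg : g ∈ Rs S H a z) (hg' : g' ∈ Rs S H a z') (hne : Rs S H a z ≠ Rs S H a z') :
    3 * Nat.card H ≤ 8 * (Rs S H a z ∪ Rs S H a z').ncard := by
  have e1 := rs_card h hcl hz h8 hg
  have e2 := rs_card h hcl hz' h8' hg'
  have e3 := Set.ncard_union_add_ncard_inter (Rs S H a z) (Rs S H a z') (Set.toFinite _)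
    (Set.toFinite _)
  by_cases hs : Rs S H a z ⊆ Rs S H a z'
  · have hs' : ¬ Rs S H a z' ⊆ Rs S H a z := fun hc => hne (Set.Subset.antisymm hs hc)
    have e4 := rs_half h hg' hs'
    rw [Set.inter_comm] at e4
    omega
  · have e4 := rs_half h hg hs
    omega

include h in
/-- not all three cosets are met -/
theorem no_three {H : Subgroup S.G} (hcl : Closed S H) {a : S.G} (ha : a ∉ H)
    (ha4 : (D h a).index = 4) (hle : H ≤ D h a)
    (h8 : ∀ z : S.G, z ∉ H → (D h z).index ≤ 8) (hno : ¬ StepTwo S H)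
    (hL : ∀ x : S.G, ∃ y k : S.G, (∀ l ∈ H, S.q y l = S.zero) ∧ k ∈ H ∧ y * k = x)
    (z1 z2 z3 g1 g2 g3 : S.G) (hg1 : g1 ∈ H) (hg2 : g2 ∈ H) (hg3 : g3 ∈ H)
    (q1 : S.q (a * g1) z1 = S.zero) (q2 : S.q (a * g2) z2 = S.zero)
    (q3 : S.q (a * g3) z3 = S.zero) (hz1 : z1 ∉ D h a) (hz2 : z2 ∉ D h a) (hz3 : z3 ∉ D h a)
    (h12 : z1 * z2 ∉ D h a) (h13 : z1 * z3 ∉ D h a) (h23 : z2 * z3 ∉ D h a) : False := by
  have hsq : ∀ x y : S.G, x * (x * y) = y := fun x y => by
    rw [← mul_assoc, h.exp2, one_mul]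
  have hout : ∀ z : S.G, z ∉ D h a → z ∉ H := fun z hz hc => hz (hle hc)
  have hdis : ∀ z z' : S.G, z ∉ D h a → z' ∉ D h a → z * z' ∉ D h a →
      Disjoint (Rs S H a z) (Rs S H a z') := by
    intro z z' hz hz' hzz
    rw [Set.disjoint_left]
    rintro k ⟨hk, hkz⟩ ⟨-, hkz'⟩
    exact hno (stepTwo_of_common h ha ha4 hz hz' hzz hk hkz hkz')
  have hone : ∀ z : S.G, z ∉ D h a → (1 : S.G) ∉ Rs S H a z := by
    rintro z hz ⟨-, hc⟩
    rw [mul_one] at hc
    exact hz hc
  -- `tight` cosets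
  let tight : S.G → Prop := fun z => ∀ z' g' : S.G, z * z' ∈ D h a → g' ∈ Rs S H a z' →
    Rs S H a z' = Rs S H a z
  have hmove : ∀ z z' w : S.G, z * z' ∈ D h a → z * w ∉ D h a → z' * w ∉ D h a := by
    intro z z' w h1 h2 hc
    apply h2
    have := (D h a).mul_mem h1 hc
    rwa [mul_assoc, ← mul_assoc z', h.exp2, one_mul] at this
  have hmove' : ∀ z z' : S.G, z * z' ∈ D h a → z ∉ D h a → z' ∉ D h a := by
    intro z z' h1 h2 hc
    apply h2
    have := (D h a).mul_mem h1 hc
    rwa [mul_assoc, h.exp2, mul_one] at this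
  obtain ⟨y0, k0, hy0, hk0, e0⟩ := hL S.neg
  -- the element `k0` lies in all tight sets
  have htight : ∀ z g : S.G, z ∉ D h a → g ∈ Rs S H a z → tight z →
      ∃ z' : S.G, z * z' ∈ D h a ∧ k0 ∈ Rs S H a z' := by
    intro z g hz hg ht
    obtain ⟨y, k, hy, hk, rfl⟩ := hL z
    have hqa : ∀ l ∈ H, S.q a (y * l) = S.q a y := by
      intro l hl
      rw [mul_comm, q_shift h _ (show S.q a l = S.zero from hle hl)]
    have hqg : ∀ m l : S.G, m ∈ H → S.q m (y * l) = S.q m l := by
      intro m l hm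
      exact q_shift h _ (by rw [h.qs2]; exact hy m hm)
    -- `q(a,y) = q(g,k)`
    have e1 : S.q a y = S.q g k := by
      have := (q_eq_iff h a g (y * k)).2 hg.2
      rwa [hqa k hk, hqg g k hg.1] at this
    have hin : (y * k) * (y * g) ∈ D h a := by
      rw [mul_mul_mul_comm, h.exp2, one_mul]
      exact hle (H.mul_mem hk hg.1)
    have hk' : k ∈ Rs S H a (y * g) := by
      refine ⟨hk, (q_eq_iff h a k (y * g)).1 ?_⟩
      rw [hqa g hg.1, hqg k g hk, e1, h.qs2]
    have e2 : g ∈ Rs S H a (y * g) := by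
      rw [ht (y * g) k hin hk']
      exact hg
    have e3 : S.q a y = S.q g g := by
      have := (q_eq_iff h a g (y * g)).2 e2.2
      rwa [hqa g hg.1, hqg g g hg.1] at this
    have e4 : S.q g g = S.q g S.neg := by
      rw [h.qs3, mul_comm]
      exact h.qs1 g
    have e5 : S.q g S.neg = S.q g k0 := by
      rw [← e0]
      exact q_shift h _ (by rw [h.qs2]; exact hy0 g hg.1)
    refine ⟨y * g, hin, hk0, (q_eq_iff h a k0 (y * g)).1 ?_⟩
    rw [hqa g hg.1, hqg k0 g hk0, e3, e4, e5, h.qs2]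
  have htt : ∀ z g w g' : S.G, z ∉ D h a → w ∉ D h a → z * w ∉ D h a → g ∈ Rs S H a z →
      g' ∈ Rs S H a w → tight z → tight w → False := by
    intro z g w g' hz hw hzw hg hg' ht ht'
    obtain ⟨z', e1, e2⟩ := htight z g hz hg ht
    obtain ⟨w', e3, e4⟩ := htight w g' hw hg' ht'
    have e5 : z' * w ∉ D h a := hmove z z' w e1 hzw
    have e6 : w' * z' ∉ D h a := hmove w w' z' e3 (by rw [mul_comm]; exact e5)
    exact Set.disjoint_left.1 (hdis z' w' (hmove' z z' e1 hz) (hmove' w w' e3 hw)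
      (by rw [mul_comm]; exact e6)) e2 e4
  have hnn : ∀ z g w g' v g'' : S.G, z ∉ D h a → w ∉ D h a → v ∉ D h a → z * w ∉ D h a →
      z * v ∉ D h a → w * v ∉ D h a → g ∈ Rs S H a z → g' ∈ Rs S H a w → g'' ∈ Rs S H a v →
      ¬ tight z → ¬ tight w → False := by
    intro z g w g' v g'' hz hw hv hzw hzv hwv hg hg' hg'' ht ht'
    simp only [tight] at ht ht'
    push Not at ht ht'
    obtain ⟨z', l, e1, hl, hne⟩ := ht
    obtain ⟨w', l', e1', hl', hne'⟩ := ht'
    have hz' := hmove' z z' e1 hz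
    have hw' := hmove' w w' e1' hw
    have a1 : z' * w ∉ D h a := hmove z z' w e1 hzw
    have a2 : w' * z ∉ D h a := hmove w w' z e1' (by rw [mul_comm]; exact hzw)
    have a3 : w' * z' ∉ D h a := hmove w w' z' e1' (by rw [mul_comm]; exact a1)
    have a4 : z' * v ∉ D h a := hmove z z' v e1 hzv
    have a5 : w' * v ∉ D h a := hmove w w' v e1' hwv
    have b1 := rs_union h hcl (hout z' hz') (hout z hz) (h8 _ (hout z' hz')) (h8 _ (hout z hz))
      hl hg hne
    have b2 := rs_union h hcl (hout w' hw') (hout w hw) (h8 _ (hout w' hw')) (h8 _ (hout w hw))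
      hl' hg' hne'
    have b3 := rs_card h hcl (hout v hv) (h8 _ (hout v hv)) hg''
    set A := Rs S H a z' ∪ Rs S H a z
    set B := Rs S H a w' ∪ Rs S H a w
    have d1 : Disjoint A B := by
      rw [Set.disjoint_union_left, Set.disjoint_union_right, Set.disjoint_union_right]
      exact ⟨⟨hdis z' w' hz' hw' (by rw [mul_comm]; exact a3), hdis z' w hz' hw a1⟩,
        hdis z w' hz hw' (by rw [mul_comm]; exact a2), hdis z w hz hw hzw⟩
    have d2 : Disjoint (A ∪ B) (Rs S H a v) := by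
      rw [Set.disjoint_union_left, Set.disjoint_union_left, Set.disjoint_union_left]
      exact ⟨⟨hdis z' v hz' hv a4, hdis z v hz hv hzv⟩, hdis w' v hw' hv a5, hdis w v hw hv hwv⟩
    have s1 : A ∪ B ∪ Rs S H a v ⊆ (H : Set S.G) \ {1} := by
      have hsub : ∀ x : S.G, x ∉ D h a → Rs S H a x ⊆ (H : Set S.G) \ {1} := by
        intro x hx k hk
        refine ⟨hk.1, fun hc => hone x hx ?_⟩
        rw [Set.mem_singleton_iff] at hc
        rw [← hc]
        exact hk
      exact Set.union_subset (Set.union_subset (Set.union_subset (hsub z' hz') (hsub z hz))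
        (Set.union_subset (hsub w' hw') (hsub w hw))) (hsub v hv)
    have s2 := Set.ncard_le_ncard s1 (Set.toFinite _)
    have s3 : ((H : Set S.G) \ {1}).ncard + 1 = Nat.card H :=
      Set.ncard_sdiff_singleton_add_one H.one_mem (Set.toFinite _)
    rw [Set.ncard_union_eq d2 (Set.toFinite _) (Set.toFinite _),
      Set.ncard_union_eq d1 (Set.toFinite _) (Set.toFinite _)] at s2
    omega
  have r1 : g1 ∈ Rs S H a z1 := ⟨hg1, q1⟩
  have r2 : g2 ∈ Rs S H a z2 := ⟨hg2, q2⟩
  have r3 : g3 ∈ Rs S H a z3 := ⟨hg3, q3⟩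
  have h21 : z2 * z1 ∉ D h a := by rw [mul_comm]; exact h12
  have h31 : z3 * z1 ∉ D h a := by rw [mul_comm]; exact h13
  have h32 : z3 * z2 ∉ D h a := by rw [mul_comm]; exact h23
  by_cases t1 : tight z1
  · by_cases t2 : tight z2
    · exact htt z1 g1 z2 g2 hz1 hz2 h12 r1 r2 t1 t2
    · by_cases t3 : tight z3
      · exact htt z1 g1 z3 g3 hz1 hz3 h13 r1 r3 t1 t3
      · exact hnn z2 g2 z3 g3 z1 g1 hz2 hz3 hz1 h23 h21 h31 r2 r3 r1 t2 t3
  · by_cases t2 : tight z2
    · by_cases t3 : tight z3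
      · exact htt z2 g2 z3 g3 hz2 hz3 h23 r2 r3 t2 t3
      · exact hnn z1 g1 z3 g3 z2 g2 hz1 hz3 hz2 h13 h12 h32 r1 r3 r2 t1 t3
    · exact hnn z1 g1 z2 g2 z3 g3 hz1 hz2 hz3 h12 h13 h23 r1 r2 r3 t1 t2

include h in
/-- symbols extend from a closed subgroup outside of which all value groups have index at most
eight if the elements with value groups of index at most four generate the group over it -/
theorem canExt_eight {H : Subgroup S.G} (hcl : Closed S H)
    (h8 : ∀ z : S.G, z ∉ H → (D h z).index ≤ 8) (hne : ∃ b : S.G, b ∉ H)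
    (hgen : ∀ L : Subgroup S.G, H ≤ L → (∀ y : S.G, (D h y).index ≤ 4 → y ∈ L) → L = ⊤) :
    CanExt S H := by
  by_contra hcon
  have hno : ¬ StepTwo S H := fun hs => hcon (canExt_of_stepTwo h hs)
  have hfour : ∀ a : S.G, a ∉ H → (D h a).index ≤ 4 → (D h a).index = 4 := by
    intro a ha hle
    have := four_le h fun hc => ha (hcl.1 a hc)
    omega
  have hperp : ∀ a : S.G, a ∉ H → (D h a).index ≤ 4 → H ≤ D h a := by
    intro a ha h4 k hk
    by_contra hka
    exact hcon (canExt_of_pairs h ha (pairs_of_not_le h hcl ha (hfour a ha h4) hk hka h8 hno))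
  let Y : Subgroup S.G :=
    { carrier := {y | ∀ l ∈ H, S.q y l = S.zero}
      one_mem' := fun l _ => by rw [h.qs2]; exact q_one h l
      mul_mem' := fun {x y} hx hy l hl => by
        rw [q_mul_left h (hx l hl)]
        exact hy l hl
      inv_mem' := by
        intro x hx
        have e : x⁻¹ = x := inv_eq_of_mul_eq_one_left (h.exp2 x)
        rw [e]
        exact hx }
  have hYH : Y ⊔ H = ⊤ := by
    refine hgen _ le_sup_right fun y hy => ?_
    by_cases hyH : y ∈ H
    · exact Subgroup.mem_sup_right hyH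
    · exact Subgroup.mem_sup_left fun l hl => hperp y hyH hy hl
  have hL : ∀ x : S.G, ∃ y k : S.G, (∀ l ∈ H, S.q y l = S.zero) ∧ k ∈ H ∧ y * k = x := by
    intro x
    have hx : x ∈ Y ⊔ H := by rw [hYH]; trivial
    obtain ⟨y, hy, k, hk, e⟩ := Subgroup.mem_sup.1 hx
    exact ⟨y, k, hy, hk, e⟩
  obtain ⟨a, ha, ha4⟩ : ∃ a : S.G, a ∉ H ∧ (D h a).index ≤ 4 := by
    by_contra hc
    push Not at hc
    have hH : H = ⊤ := hgen H le_rfl fun y hy => by
      by_contra hyH
      have := hc y hyH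
      omega
    obtain ⟨b, hb⟩ := hne
    exact hb (by rw [hH]; trivial)
  exact hcon (canExt_of_no_three h ha fun z1 z2 z3 g1 g2 g3 hg1 hg2 hg3 q1 q2 q3 hz1 hz2 hz3
    h12 h13 h23 => no_three h hcl ha (hfour a ha ha4) (hperp a ha ha4) h8 hno hL z1 z2 z3 g1 g2
    g3 hg1 hg2 hg3 q1 q2 q3 hz1 hz2 hz3 h12 h13 h23)

include h in
/-- the elements outside the core with value groups of index more than four which are not
orthogonal up to the core to all elements of this kind have value groups of index at most eight and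
are products of elements with value groups of index at most four and elements of the core -/
theorem elem_bad (hB : ∀ e f : S.G, e ∉ Core S → f ∉ Core S → 4 < (D h e).index →
    4 < (D h f).index → f ∉ D h e ⊔ Core S → (D h e).index ≤ 8 ∧
      e ∈ Subgroup.closure ({y : S.G | (D h y).index ≤ 4} ∪ (Core S : Set S.G))) : Elem S := by
  refine elem_of_closed h fun H hcl hi => ?_
  have hcore : Core S ≤ H := sInf_le hcl
  by_contra hcon
  set L := Subgroup.closure ({y : S.G | (D h y).index ≤ 4} ∪ (Core S : Set S.G)) with hLdef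
  have key : ∀ e : S.G, e ∉ H → 4 < (D h e).index → (D h e).index ≤ 8 ∧ e ∈ L := by
    intro e he hei
    by_contra hc
    apply hcon
    refine canExt_of_pairs h he (pairs_of_two h fun z hz g _ _ => ?_)
    have hzH : z ∉ H := fun hc => hz (Subgroup.mem_sup_right hc)
    refine twoOn_of_index h hcl hzH ?_
    by_contra hz4
    push Not at hz4
    exact hc (hB e z (fun hc' => he (hcore hc')) (fun hc' => hzH (hcore hc')) hei hz4
      fun hc' => hz ((sup_le_sup_left hcore (D h e)) hc'))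
  have h8 : ∀ z : S.G, z ∉ H → (D h z).index ≤ 8 := by
    intro z hz
    by_contra hc
    exact hc (key z hz (by omega)).1
  have hout : ∀ z : S.G, z ∉ H → z ∈ L := by
    intro z hz
    by_cases h4 : (D h z).index ≤ 4
    · exact Subgroup.subset_closure (Or.inl h4)
    · exact (key z hz (by omega)).2
  obtain ⟨b, hb⟩ := exists_out hi
  have hall : ∀ z : S.G, z ∈ L := by
    intro z
    by_cases hz : z ∈ H
    · have h1 : b * z ∉ H := by
        intro hc
        apply hb
        have := H.mul_mem hc hz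
        rwa [mul_assoc, h.exp2, mul_one] at this
      have h2 := L.mul_mem (hout b hb) (hout _ h1)
      rwa [← mul_assoc, h.exp2, one_mul] at h2
    · exact hout z hz
  refine hcon (canExt_eight h hcl h8 ⟨b, hb⟩ fun M hM hy => ?_)
  have hLM : L ≤ M := by
    rw [hLdef, Subgroup.closure_le]
    rintro y (hy4 | hyc)
    · exact hy y hy4
    · exact hM (hcore hyc)
  exact eq_top_iff.2 fun x _ => hLM (hall x)

end

end Pool.Agent.R19.QS
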