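import Pool.Agent.R19.QS.Sub

/-! Extension of symbols over elements with few values on the subgroup. -/

set_option autoImplicit false

namespace Pool.Agent.R19.QS

open Pool.Agent.H315R3.ETC Pool.Agent.TH673.VG

/-- at most two quaternions are of the form `q(z,k)` with `k ∈ H` -/
def TwoOn (S : QData) (H : Subgroup S.G) (z : S.G) : Prop :=
  ∀ u ∈ H, ∀ v ∈ H, S.q z u = S.zero ∨ S.q z v = S.zero ∨ S.q z (u * v) = S.zero

section
variable {S : QData} (h : IsQuat S)

include h in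
lemma twoOn_mul {H : Subgroup S.G} {a y l k : S.G} (hy : TwoOn S H y) (hl : l ∈ H) (hk : k ∈ H)
    (hyl : S.q (a * l) y = S.zero) (h1 : S.q y l ≠ S.zero) (h2 : S.q y k ≠ S.zero) :
    S.q (a * k) y = S.zero := by
  have e : S.q y (l * k) = S.zero := by
    rcases hy l hl k hk with e | e | e
    · exact absurd e h1
    · exact absurd e h2
    · exact e
  have h3 : S.q y (a * l) = S.zero := by rw [h.qs2]; exact hyl
  have h4 := p_mul h h3 e
  rw [← mul_assoc, mul_cancel h] at h4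
  rw [h.qs2]
  exact h4

include h in
lemma ne_of_out {a y k : S.G} (hy : S.q (a * k) y = S.zero) (hya : S.q a y ≠ S.zero) :
    S.q y k ≠ S.zero := by
  intro hc
  apply hya
  rw [h.qs2]
  have h2 : S.q y (a * k) = S.zero := by rw [h.qs2]; exact hy
  have h3 := p_mul h h2 hc
  rwa [mul_cancel h] at h3

include h in
/-- two elements with few values on `H` which are orthogonal to elements of `aH` are orthogonal to
the same element of `aH` -/
lemma common_of_two {H : Subgroup S.G} {a z z' g g' : S.G} (hg : g ∈ H) (hg' : g' ∈ H)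
    (hz : S.q (a * g) z = S.zero) (hz' : S.q (a * g') z' = S.zero)
    (hza : S.q a z ≠ S.zero) (hza' : S.q a z' ≠ S.zero) (h2 : TwoOn S H z) (h2' : TwoOn S H z') :
    ∃ k ∈ H, S.q (a * k) z = S.zero ∧ S.q (a * k) z' = S.zero := by
  have hz1 := ne_of_out h hz hza
  have hz1' := ne_of_out h hz' hza'
  obtain ⟨k, hk, hk1, hk2⟩ : ∃ k ∈ H, S.q z k ≠ S.zero ∧ S.q z' k ≠ S.zero := by
    by_cases c1 : S.q z' g = S.zero
    · by_cases c2 : S.q z g' = S.zero
      · refine ⟨g * g', H.mul_mem hg hg', fun hc => hz1 ?_, fun hc => hz1' ?_⟩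
        · have := p_mul h hc c2
          rwa [mul_cancel h] at this
        · rw [mul_comm] at hc
          have := p_mul h hc c1
          rwa [mul_cancel h] at this
      · exact ⟨g', hg', c2, hz1'⟩
    · exact ⟨g, hg, hz1, c1⟩
  exact ⟨k, hk, twoOn_mul h h2 hg hk hz hz1 hk1, twoOn_mul h h2' hg' hk hz' hz1' hk2⟩

/-- any two elements outside `V(a)H` which are orthogonal to elements of `aH` are orthogonal to a
common element of `aH` -/
def Pairs (H : Subgroup S.G) (a : S.G) : Prop :=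
  ∀ z z' g g' : S.G, z ∉ D h a ⊔ H → z' ∉ D h a ⊔ H → g ∈ H → g' ∈ H → S.q (a * g) z = S.zero →
    S.q (a * g') z' = S.zero → ∃ k ∈ H, S.q (a * k) z = S.zero ∧ S.q (a * k) z' = S.zero

/-- symbols on `H` extend to a larger subgroup -/
def CanExt (S : QData) (H : Subgroup S.G) : Prop :=
  ∀ χ : S.G → S.G → ZMod 2, Sy S H χ → ∃ a ∉ H, ∃ χ1 : S.G → S.G → ZMod 2,
    Sy S (H ⊔ Subgroup.zpowers a) χ1 ∧ ∀ x ∈ H, ∀ b, χ1 x b = χ x b

include h in
/-- the extension lemma -/
theorem extend_pairs (H : Subgroup S.G) (χ : S.G → S.G → ZMod 2) (hχ : Sy S H χ) (a : S.G)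
    (ha : a ∉ H) (hP : Pairs h H a) :
    ∃ χ' : S.G → S.G → ZMod 2, Sy S (H ⊔ Subgroup.zpowers a) χ' ∧
      ∀ x ∈ H, ∀ b, χ' x b = χ x b := by
  classical
  have hχ' := hχ
  obtain ⟨c1, c2, c3⟩ := hχ'
  have h22 : ∀ u : ZMod 2, u + u = 0 := by decide
  obtain ⟨f0, f1, f2, f3⟩ := hom_glue h (D h a) H (fun k => χ k a)
    (fun k hk k' hk' => c1 k hk k' hk' a) (fun k hk hka => c3 k hk a (by rw [h.qs2]; exact hka))
  set M : Subgroup S.G := D h a ⊔ H with hM
  have hsq : ∀ x : S.G, x * x = 1 := h.exp2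
  -- values at a common point
  have fact1 : ∀ g ∈ H, ∀ g' ∈ H, ∀ b, S.q (a * g) b = S.zero → S.q (a * g') b = S.zero →
      χ g b = χ g' b := by
    intro g hg g' hg' b hb hb'
    refine sy_eq h hχ hg hg' ?_
    rw [← (q_eq_iff h a g b).2 hb, (q_eq_iff h a g' b).2 hb']
  have fact2 : ∀ g ∈ H, ∀ b ∈ M, S.q (a * g) b = S.zero → χ g b = f0 b := by
    intro g hg b hb hgb
    obtain ⟨v, hv, k, hk, rfl⟩ := Subgroup.mem_sup.1 hb
    have g1 : χ k a = χ g (v * k) := by
      refine sy_eq h hχ hk hg ?_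
      rw [← (q_eq_iff h a g (v * k)).2 hgb, q_shift h _ hv, h.qs2]
    rw [f1, f2 v hv, f3 k hk, zero_add, g1]
  -- a common element for two points
  have fact3 : ∀ z z' g g' : S.G, z ∉ M → z' ∉ M → g ∈ H → g' ∈ H → S.q (a * g) z = S.zero →
      S.q (a * g') z' = S.zero → ∃ k ∈ H, S.q (a * k) z = S.zero ∧ S.q (a * k) z' = S.zero := by
    intro z z' g g' hz hz' hg hg' hgz hgz'
    exact hP z z' g g' hz hz' hg hg' hgz hgz'
  -- the function
  let R : S.G → S.G → S.G → Prop := fun x t g =>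
    g ∈ H ∧ S.q (a * g) t = S.zero ∧ t ∉ M ∧ x * t ∈ M
  let φ : S.G → ZMod 2 := fun x =>
    if hx : ∃ p : S.G × S.G, R x p.1 p.2 then χ hx.choose.2 hx.choose.1 + f0 hx.choose.1 else 0
  have hval2 : ∀ x t g t' g' : S.G, R x t g → R x t' g' → χ g t + f0 t = χ g' t' + f0 t' := by
    rintro x t g t' g' ⟨hg, hgt, htM, hxt⟩ ⟨hg', hgt', htM', hxt'⟩
    obtain ⟨k, hk, hk1, hk2⟩ := fact3 t t' g g' htM htM' hg hg' hgt hgt'
    have e1 : t * t' ∈ M := by
      have := M.mul_mem hxt hxt'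
      rwa [mul_mul_mul_comm, hsq, one_mul] at this
    have e2 : S.q (a * k) (t * t') = S.zero := p_mul h hk1 hk2
    have e3 := fact2 k hk _ e1 e2
    rw [c2 k hk, f1] at e3
    rw [fact1 g hg k hk t hgt hk1, fact1 g' hg' k hk t' hgt' hk2]
    linear_combination e3 + h22 (f0 t) - h22 (χ k t')
  have hval : ∀ x t g : S.G, R x t g → φ x = χ g t + f0 t := by
    intro x t g hR
    have hx : ∃ p : S.G × S.G, R x p.1 p.2 := ⟨(t, g), hR⟩
    have e : φ x = χ hx.choose.2 hx.choose.1 + f0 hx.choose.1 := dif_pos hx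
    rw [e]
    exact hval2 x _ _ t g hx.choose_spec hR
  have hzero : ∀ x ∈ M, φ x = 0 := by
    intro x hx
    refine dif_neg ?_
    rintro ⟨⟨t, g⟩, -, -, htM, hxt⟩
    apply htM
    have := M.mul_mem hx hxt
    rwa [← mul_assoc, hsq, one_mul] at this
  -- the product of two points
  have hprod : ∀ x t g y s g' : S.G, R x t g → R y s g' →
      (x * y ∈ M ∧ (χ g t + f0 t) + (χ g' s + f0 s) = 0) ∨
      ∃ k, R (x * y) (t * s) k ∧ χ k (t * s) + f0 (t * s) = (χ g t + f0 t) + (χ g' s + f0 s) := by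
    rintro x t g y s g' ⟨hg, hgt, htM, hxt⟩ ⟨hg', hgs, hsM, hys⟩
    obtain ⟨k, hk, hk1, hk2⟩ := fact3 t s g g' htM hsM hg hg' hgt hgs
    have e2 : S.q (a * k) (t * s) = S.zero := p_mul h hk1 hk2
    have e4 : (x * y) * (t * s) ∈ M := by
      have := M.mul_mem hxt hys
      rwa [mul_mul_mul_comm] at this
    have e5 : χ k (t * s) + f0 (t * s) = (χ g t + f0 t) + (χ g' s + f0 s) := by
      rw [fact1 g hg k hk t hgt hk1, fact1 g' hg' k hk s hgs hk2, c2 k hk, f1]
      ring
    by_cases hts : t * s ∈ M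
    · left
      refine ⟨?_, ?_⟩
      · have := M.mul_mem e4 hts
        rwa [mul_assoc, hsq, mul_one] at this
      · rw [← e5, fact2 k hk _ hts e2, h22]
    · exact Or.inr ⟨k, ⟨hk, e2, hts, e4⟩, e5⟩
  let K : Subgroup S.G :=
    { carrier := {x | x ∈ M ∨ ∃ t g, R x t g}
      one_mem' := Or.inl M.one_mem
      mul_mem' := by
        rintro x y (hx | ⟨t, g, hx⟩) (hy | ⟨s, g', hy⟩)
        · exact Or.inl (M.mul_mem hx hy)
        · refine Or.inr ⟨s, g', hy.1, hy.2.1, hy.2.2.1, ?_⟩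
          rw [mul_assoc]
          exact M.mul_mem hx hy.2.2.2
        · refine Or.inr ⟨t, g, hx.1, hx.2.1, hx.2.2.1, ?_⟩
          rw [mul_right_comm]
          exact M.mul_mem hx.2.2.2 hy
        · rcases hprod x t g y s g' hx hy with h1 | ⟨k, hk, -⟩
          · exact Or.inl h1.1
          · exact Or.inr ⟨_, _, hk⟩
      inv_mem' := by
        intro x hx
        have e : x⁻¹ = x := inv_eq_of_mul_eq_one_left (hsq x)
        rw [e]
        exact hx }
  have hK : ∀ x : S.G, x ∈ K ↔ x ∈ M ∨ ∃ t g, R x t g := fun _ => Iff.rfl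
  have hadd : ∀ x ∈ K, ∀ y ∈ K, φ (x * y) = φ x + φ y := by
    intro x hx y hy
    rcases (hK x).1 hx with hx | ⟨t, g, hx⟩ <;> rcases (hK y).1 hy with hy | ⟨s, g', hy⟩
    · rw [hzero _ (M.mul_mem hx hy), hzero x hx, hzero y hy, add_zero]
    · have h1 : R (x * y) s g' := ⟨hy.1, hy.2.1, hy.2.2.1, by
        rw [mul_assoc]
        exact M.mul_mem hx hy.2.2.2⟩
      rw [hval _ _ _ h1, hval _ _ _ hy, hzero x hx, zero_add]
    · have h1 : R (x * y) t g := ⟨hx.1, hx.2.1, hx.2.2.1, by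
        rw [mul_right_comm]
        exact M.mul_mem hx.2.2.2 hy⟩
      rw [hval _ _ _ h1, hval _ _ _ hx, hzero y hy, add_zero]
    · rw [hval _ _ _ hx, hval _ _ _ hy]
      rcases hprod x t g y s g' hx hy with h1 | ⟨k, hk, e⟩
      · rw [hzero _ h1.1, h1.2]
      · rw [hval _ _ _ hk, e]
  obtain ⟨f, F1, F2, F3⟩ := hom_glue h M K φ hadd (fun x _ hx => hzero x hx)
  refine extend_of_hom h H χ hχ a ha (fun b => f0 b + f b) (fun x y => ?_) ?_
  · show f0 (x * y) + f (x * y) = (f0 x + f x) + (f0 y + f y)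
    rw [f1, F1]; ring
  · intro g hg b hb
    show f0 b + f b = χ g b
    by_cases hbM : b ∈ M
    · rw [F2 b hbM, add_zero, fact2 g hg b hbM hb]
    · have hR : R b b g := ⟨hg, hb, hbM, by rw [hsq]; exact M.one_mem⟩
      rw [F3 b ((hK b).2 (Or.inr ⟨b, g, hR⟩)), hval b b g hR]
      linear_combination h22 (f0 b)

include h in
theorem pairs_of_two {H : Subgroup S.G} {a : S.G}
    (hz : ∀ z : S.G, z ∉ D h a ⊔ H → ∀ g ∈ H, S.q (a * g) z = S.zero → TwoOn S H z) :
    Pairs h H a := by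
  intro z z' g g' hzM hzM' hg hg' hgz hgz'
  exact common_of_two h hg hg' hgz hgz' (fun hc => hzM (Subgroup.mem_sup_left hc))
    (fun hc => hzM' (Subgroup.mem_sup_left hc)) (hz z hzM g hg hgz) (hz z' hzM' g' hg' hgz')

include h in
theorem canExt_of_stepTwo {H : Subgroup S.G} (hH : StepTwo S H) : CanExt S H := by
  intro χ hχ
  obtain ⟨a, ha, c, hc, hMa⟩ := hH
  exact ⟨a, ha, extend_one h H χ hχ a ha c hc hMa⟩

include h in
theorem canExt_of_pairs {H : Subgroup S.G} {a : S.G} (ha : a ∉ H) (hP : Pairs h H a) :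
    CanExt S H := fun χ hχ => ⟨a, ha, extend_pairs h H χ hχ a ha hP⟩

variable [Finite S.G]

include h in
/-- symbols extend to the whole group -/
theorem extend_all_ext (hM : ∀ H : Subgroup S.G, H ≠ ⊤ → (∀ a, IndexTwo S a → a ∈ H) →
    CanExt S H) :
    ∀ H : Subgroup S.G, ∀ χ : S.G → S.G → ZMod 2, Sy S H χ →
      ∃ χ' : S.G → S.G → ZMod 2, Sy S ⊤ χ' ∧ ∀ x ∈ H, ∀ b, χ' x b = χ x b := by
  intro H
  induction H using WellFoundedGT.induction with
  | ind H ih =>
    intro χ hχ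
    by_cases hH : H = ⊤
    · subst hH
      exact ⟨χ, hχ, fun _ _ _ => rfl⟩
    obtain ⟨a, ha, χ1, h1, h2⟩ : ∃ a ∉ H, ∃ χ1 : S.G → S.G → ZMod 2,
        Sy S (H ⊔ Subgroup.zpowers a) χ1 ∧ ∀ x ∈ H, ∀ b, χ1 x b = χ x b := by
      by_cases hI : ∀ a, IndexTwo S a → a ∈ H
      · exact hM H hH hI χ hχ
      · push Not at hI
        obtain ⟨a, hidx, ha⟩ := hI
        exact ⟨a, ha, extend_idx h H χ hχ a ha hidx⟩
    have hlt : H < H ⊔ Subgroup.zpowers a := by
      refine lt_of_le_of_ne le_sup_left fun e => ha ?_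
      rw [e]
      exact (le_sup_right : _ ≤ H ⊔ Subgroup.zpowers a) (Subgroup.mem_zpowers a)
    obtain ⟨χ2, h3, h4⟩ := ih _ hlt χ1 h1
    exact ⟨χ2, h3, fun x hx b => by
      rw [h4 x ((le_sup_left : H ≤ _) hx), h2 x hx]⟩

include h in
theorem elem_of_canExt (hM : ∀ H : Subgroup S.G, H ≠ ⊤ → (∀ a, IndexTwo S a → a ∈ H) →
    CanExt S H) : Elem S := by
  have hmp : Pool.Agent.W622.ETG.MP S := by
    intro W l f hl hf h0
    obtain ⟨χ', h1, h2⟩ := extend_all_ext h hM W (fun w b => l w * f b)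
      ⟨fun a _ b _ c => by
          show l (a * b) * f c = l a * f c + l b * f c
          rw [hl, add_mul],
        fun a _ b c => by
          show l a * f (b * c) = l a * f b + l a * f c
          rw [hf, mul_add], h0⟩
    exact ⟨χ', h1, h2⟩
  obtain ⟨hcore, hPL, hout, -⟩ := Pool.Agent.W622.ETG.all_parts
  obtain ⟨V, i1, i2, i3, e, A, hA, hH, hiso⟩ :=
    Pool.Agent.W622.ETG.bri_prod hPL S h inferInstance hmp
  exact Elem.iso _ _ (hout V e A (hcore V e A hA hH)) hiso

include h in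
/-- it is enough to look at the closed subgroups of index at least eight -/
theorem elem_of_closed (hM : ∀ H : Subgroup S.G, Closed S H → 8 ≤ H.index → CanExt S H) :
    Elem S := by
  refine elem_of_canExt h fun H hH hI => ?_
  by_cases hi : H.index < 8
  · exact canExt_of_stepTwo h (stepTwo_of_step (step_of_index h H hH hi))
  by_cases hcl : Closed S H
  · exact hM H hcl (by omega)
  · obtain ⟨a, ha, haH⟩ : ∃ a : S.G, (∀ x : S.G, ∃ v k : S.G, S.q a v = S.zero ∧ k ∈ H ∧
        v * k = x) ∧ a ∉ H := by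
      by_contra hc
      push Not at hc
      exact hcl ⟨hI, hc⟩
    refine canExt_of_stepTwo h (stepTwo_of_step ⟨a, haH, fun g _ x _ => ?_⟩)
    obtain ⟨v, k, hv, hk, e⟩ := ha x
    exact ⟨v, k, hv, hk, e⟩

omit [Finite S.G] in
include h in
lemma closed_sup {H : Subgroup S.G} (hcl : Closed S H) {a : S.G} (ha : a ∉ H) :
    D h a ⊔ H ≠ ⊤ := by
  intro htop
  refine ha (hcl.2 a fun x => ?_)
  have hx : x ∈ D h a ⊔ H := by rw [htop]; trivial
  obtain ⟨v, hv, k, hk, e⟩ := Subgroup.mem_sup.1 hx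
  exact ⟨v, k, hv, hk, e⟩

include h in
/-- elements with value group of index at most four outside a closed subgroup -/
lemma twoOn_of_index {H : Subgroup S.G} (hcl : Closed S H) {z : S.G} (hz : z ∉ H)
    (hi : (D h z).index ≤ 4) : TwoOn S H z := by
  intro u hu v hv
  by_contra hcon
  push Not at hcon
  obtain ⟨hu0, hv0, huv⟩ := hcon
  have h1 : D h z < D h z ⊔ Subgroup.zpowers u := lt_sup_zpowers hu0
  have h2 : v ∉ D h z ⊔ Subgroup.zpowers u := by
    intro hc
    rcases mem_sup_z h hc with hc | hc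
    · exact hv0 hc
    · apply huv
      rw [mul_comm]
      exact hc
  have h3 := two_mul_index h1
  have h4 := two_mul_index (lt_sup_zpowers h2)
  have h5 := index_pos (D h z ⊔ Subgroup.zpowers u ⊔ Subgroup.zpowers v)
  have h6 : D h z ⊔ Subgroup.zpowers u ⊔ Subgroup.zpowers v = ⊤ :=
    Subgroup.index_eq_one.1 (by omega)
  apply closed_sup h hcl hz
  rw [eq_top_iff, ← h6]
  refine sup_le (sup_le le_sup_left ?_) ?_
  · rw [Subgroup.zpowers_le]
    exact Subgroup.mem_sup_right hu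
  · rw [Subgroup.zpowers_le]
    exact Subgroup.mem_sup_right hv

omit [Finite S.G] in
lemma exists_out {H : Subgroup S.G} (hi : 8 ≤ H.index) : ∃ b : S.G, b ∉ H := by
  by_contra hc'
  push Not at hc'
  have : H = ⊤ := eq_top_iff.2 fun x _ => hc' x
  rw [this, Subgroup.index_top] at hi
  omega

include h in
/-- elements of large index which are orthogonal up to the core -/
theorem elem_of_pairs (hE : ∀ e e' : S.G, e ∉ Core S → e' ∉ Core S → 4 < (D h e).index →
    4 < (D h e').index → e' ∈ D h e ⊔ Core S) : Elem S := by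
  refine elem_of_closed h fun H hcl hi => ?_
  have hcore : Core S ≤ H := sInf_le hcl
  by_cases hex : ∃ a : S.G, a ∉ H ∧ 4 < (D h a).index
  · obtain ⟨a, ha, hai⟩ := hex
    refine canExt_of_pairs h ha (pairs_of_two h fun z hz g _ _ => ?_)
    have hzH : z ∉ H := fun hc => hz (Subgroup.mem_sup_right hc)
    refine twoOn_of_index h hcl hzH ?_
    by_contra hc
    push Not at hc
    apply hz
    exact (sup_le_sup_left hcore (D h a)) (hE a z (fun hc' => ha (hcore hc'))
      (fun hc' => hzH (hcore hc')) hai hc)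
  · push Not at hex
    obtain ⟨a, ha⟩ := exists_out hi
    refine canExt_of_pairs h ha (pairs_of_two h fun z hz g _ _ => ?_)
    have hzH : z ∉ H := fun hc => hz (Subgroup.mem_sup_right hc)
    exact twoOn_of_index h hcl hzH (hex z hzH)

include h in
/-- the core of index eight -/
theorem elem_of_core_eight (hi : (Core S).index ≤ 8) (a : S.G) (ha : a ∉ Core S)
    (hz : ∀ z : S.G, z ∉ D h a ⊔ Core S → TwoOn S (Core S) z) : Elem S := by
  refine elem_of_closed h fun H hcl h8 => ?_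
  have hcore : Core S ≤ H := sInf_le hcl
  have e : Core S = H := by
    by_contra hne
    have := two_mul_index (lt_of_le_of_ne hcore hne)
    omega
  rw [← e]
  exact canExt_of_pairs h ha (pairs_of_two h fun z hz' _ _ _ => hz z hz')

end

end Pool.Agent.R19.QS
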