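import Pool.Agent.TH673.VG.Crit
import Pool.Agent.TH673.VG.CoreDefs
import Pool.Agent.TH673.VG.IdxTwo

/-! A subgroup `W` such that `V(a) ∩ W` has small index for `a ∈ W`. -/

set_option autoImplicit false

namespace Pool.Agent.R19.QS

open Pool.Agent.H315R3.ETC Pool.Agent.TH673.VG

section
variable {S : QData} (h : IsQuat S)

include h in
lemma step_of_sup {H : Subgroup S.G} {a : S.G} (ha : a ∉ H) (htop : D h a ⊔ H = ⊤) :
    Step S H := by
  refine ⟨a, ha, fun g _ x _ => ?_⟩
  have hx : x ∈ D h a ⊔ H := by rw [htop]; trivial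
  obtain ⟨v, hv, k, hk, e⟩ := Subgroup.mem_sup.1 hx
  exact ⟨v, k, hv, hk, e⟩

variable [Finite S.G]

lemma index_pos (A : Subgroup S.G) : A.index ≠ 0 := Subgroup.FiniteIndex.index_ne_zero

lemma two_mul_index {A B : Subgroup S.G} (hAB : A < B) : 2 * B.index ≤ A.index := by
  have h8 := Subgroup.relIndex_mul_index hAB.le
  have h1 : A.relIndex B ≠ 1 := by
    rw [Ne, Subgroup.relIndex_eq_one]
    exact not_le_of_gt hAB
  have h2 : A.relIndex B ≠ 0 := Subgroup.FiniteIndex.index_ne_zero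
  calc 2 * B.index ≤ A.relIndex B * B.index := Nat.mul_le_mul_right _ (by omega)
    _ = A.index := h8

omit [Finite S.G] in
lemma lt_sup_zpowers {A : Subgroup S.G} {g : S.G} (hg : g ∉ A) : A < A ⊔ Subgroup.zpowers g := by
  refine lt_of_le_of_ne le_sup_left fun e => hg ?_
  rw [e]
  exact Subgroup.mem_sup_right (Subgroup.mem_zpowers g)

include h in
lemma four_le {a : S.G} (ha : ¬ IndexTwo S a) : 4 ≤ (D h a).index := by
  have hp : IsPGroup 2 S.G := by
    intro x
    exact ⟨1, by rw [pow_one, pow_two, h.exp2]⟩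
  obtain ⟨n, hn⟩ := hp.index (D h a)
  have h1 : n ≠ 0 := by
    rintro rfl
    rw [pow_zero, Subgroup.index_eq_one] at hn
    refine ha fun x y => Or.inl ?_
    have : x ∈ D h a := by rw [hn]; trivial
    exact this
  have h2 : n ≠ 1 := by
    rintro rfl
    rw [pow_one] at hn
    refine ha fun x y => ?_
    by_cases hx : x ∈ D h a
    · exact Or.inl hx
    by_cases hy : y ∈ D h a
    · exact Or.inr (Or.inl hy)
    · exact Or.inr (Or.inr ((Subgroup.mul_mem_iff_of_index_two hn).2
        ⟨fun h => absurd h hx, fun h => absurd h hy⟩))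
  calc 4 = 2 ^ 2 := by norm_num
    _ ≤ 2 ^ n := Nat.pow_le_pow_right (by norm_num) (by omega)
    _ = (D h a).index := hn.symm

omit [Finite S.G] in
include h in
lemma mem_sup_z {A : Subgroup S.G} {g x : S.G} (hx : x ∈ A ⊔ Subgroup.zpowers g) :
    x ∈ A ∨ x * g ∈ A := by
  obtain ⟨y, hy, z, hz, rfl⟩ := Subgroup.mem_sup.1 hx
  obtain ⟨n, rfl⟩ := Subgroup.mem_zpowers_iff.1 hz
  rcases Int.even_or_odd' n with ⟨m, rfl | rfl⟩
  · left
    rw [zpow_mul, zpow_two, h.exp2, one_zpow, mul_one]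
    exact hy
  · right
    rw [zpow_add, zpow_mul, zpow_two, h.exp2, one_zpow, one_mul, zpow_one, mul_assoc, h.exp2,
      mul_one]
    exact hy

include h in
/-- the case that all value groups have index at most four -/
theorem stepTwo_of_four (hV : ∀ a : S.G, a ∉ Core S → (D h a).index ≤ 4) (H : Subgroup S.G)
    (hH : H ≠ ⊤) (hI : ∀ a, IndexTwo S a → a ∈ H) : StepTwo S H := by
  by_contra hcon
  have hno : ∀ a : S.G, a ∉ H → D h a ⊔ H ≠ ⊤ := fun a ha htop =>
    hcon (stepTwo_of_step (step_of_sup h ha htop))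
  have hcl : Closed S H := by
    refine ⟨hI, fun a ha => ?_⟩
    by_contra haH
    refine hno a haH ?_
    rw [eq_top_iff]
    intro x _
    obtain ⟨v, k, hv, hk, e⟩ := ha x
    rw [← e]
    exact Subgroup.mul_mem_sup hv hk
  have hcore : Core S ≤ H := sInf_le hcl
  have key : ∀ a : S.G, a ∉ H → (D h a).index = 4 := by
    intro a haH
    have h4 : 4 ≤ (D h a).index := four_le h fun hc => haH (hI a hc)
    have h5 := hV a fun hc => haH (hcore hc)
    omega
  have idx : ∀ z : S.G, z ∉ H → ∀ u ∈ H, ∀ v ∈ H, S.q z u ≠ S.zero → S.q z v ≠ S.zero →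
      S.q z (u * v) = S.zero := by
    intro z hz u hu v hv hu0 hv0
    by_contra huv
    have hk := key z hz
    have h1 : D h z < D h z ⊔ Subgroup.zpowers u := lt_sup_zpowers hu0
    have h2 : v ∉ D h z ⊔ Subgroup.zpowers u := by
      intro hc
      rcases mem_sup_z h hc with hc | hc
      · exact hv0 hc
      · apply huv
        rw [mul_comm]
        exact hc
    have h3 := two_mul_index h1
    have h4 := two_mul_index (lt_sup_zpowers h2)
    have h5 := index_pos (D h z ⊔ Subgroup.zpowers u ⊔ Subgroup.zpowers v)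
    have h6 : D h z ⊔ Subgroup.zpowers u ⊔ Subgroup.zpowers v = ⊤ :=
      Subgroup.index_eq_one.1 (by omega)
    apply hno z hz
    rw [eq_top_iff, ← h6]
    refine sup_le (sup_le le_sup_left ?_) ?_
    · rw [Subgroup.zpowers_le]
      exact Subgroup.mem_sup_right hu
    · rw [Subgroup.zpowers_le]
      exact Subgroup.mem_sup_right hv
  obtain ⟨a, ha⟩ : ∃ b : S.G, b ∉ H := by
    by_contra hc'
    push Not at hc'
    exact hH (eq_top_iff.2 fun x _ => hc' x)
  have hka := key a ha
  obtain ⟨g, hg, z, hz, hzn⟩ : ∃ g ∈ H, ∃ z, z ∈ D h (a * g) ∧ z ∉ D h a ⊔ H := by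
    by_contra hc
    push Not at hc
    refine hcon (stepTwo_of_step ⟨a, ha, fun g hg x hx => ?_⟩)
    obtain ⟨v, hv, k, hk, e⟩ := Subgroup.mem_sup.1 (hc g hg x hx)
    exact ⟨v, k, hv, hk, e⟩
  obtain ⟨g', hg', z', hz', hzn', hzm'⟩ : ∃ g' ∈ H, ∃ z', z' ∈ D h (a * g') ∧
      z' ∉ D h a ⊔ H ∧ z' ∉ D h a ⊔ D h (a * g) := by
    by_contra hc
    push Not at hc
    refine hcon ⟨a, ha, g, hg, fun g' hg' x hx => ?_⟩
    by_cases hx1 : x ∈ D h a ⊔ H
    · obtain ⟨v, hv, k, hk, e⟩ := Subgroup.mem_sup.1 hx1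
      exact Or.inl ⟨v, k, Or.inl hv, hk, e⟩
    · obtain ⟨v, hv, w, hw, e⟩ := Subgroup.mem_sup.1 (hc g' hg' x hx hx1)
      exact Or.inr ⟨v, w, hv, hw, e⟩
  have hzV : z ∉ D h a := fun hc => hzn (Subgroup.mem_sup_left hc)
  have hzV' : z' ∉ D h a := fun hc => hzn' (Subgroup.mem_sup_left hc)
  have hzH : z ∉ H := fun hc => hzn (Subgroup.mem_sup_right hc)
  have hzH' : z' ∉ H := fun hc => hzn' (Subgroup.mem_sup_right hc)
  have hne : ∀ y k : S.G, y ∈ D h (a * k) → y ∉ D h a → S.q y k ≠ S.zero := by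
    intro y k hy hya hc
    apply hya
    show S.q a y = S.zero
    rw [h.qs2]
    have h2 : S.q y (a * k) = S.zero := by rw [h.qs2]; exact hy
    have h3 := p_mul h h2 hc
    rwa [mul_cancel h] at h3
  have hz1 := hne z g hz hzV
  have hz1' := hne z' g' hz' hzV'
  -- an element `k` with `z, z' ∈ V(ak)`
  obtain ⟨k, hk, hk1, hk2⟩ : ∃ k ∈ H, S.q z k ≠ S.zero ∧ S.q z' k ≠ S.zero := by
    by_cases c1 : S.q z' g = S.zero
    · by_cases c2 : S.q z g' = S.zero
      · refine ⟨g * g', H.mul_mem hg hg', fun hc => hz1 ?_, fun hc => hz1' ?_⟩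
        · have := p_mul h hc c2
          rwa [mul_cancel h] at this
        · rw [mul_comm] at hc
          have := p_mul h hc c1
          rwa [mul_cancel h] at this
      · exact ⟨g', hg', c2, hz1'⟩
    · exact ⟨g, hg, hz1, c1⟩
  have hin : ∀ y l : S.G, y ∉ H → l ∈ H → y ∈ D h (a * l) → S.q y l ≠ S.zero →
      S.q y k ≠ S.zero → y ∈ D h (a * k) := by
    intro y l hyH hl hy hyl hyk
    have h1 := idx y hyH l hl k hk hyl hyk
    have h2 : S.q y (a * l) = S.zero := by rw [h.qs2]; exact hy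
    have h3 := p_mul h h2 h1
    rw [← mul_assoc, mul_cancel h] at h3
    show S.q (a * k) y = S.zero
    rw [h.qs2]
    exact h3
  have hzk := hin z g hzH hg hz hz1 hk1
  have hzk' := hin z' g' hzH' hg' hz' hz1' hk2
  have h1 := two_mul_index (lt_sup_zpowers hzV)
  have h2 : D h a ⊔ Subgroup.zpowers z < D h a ⊔ D h (a * k) := by
    refine lt_of_le_of_ne (sup_le le_sup_left (by
      rw [Subgroup.zpowers_le]
      exact Subgroup.mem_sup_right hzk)) fun e => hzm' ?_
    have h3 : z' ∈ D h a ⊔ Subgroup.zpowers z := by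
      rw [e]
      exact Subgroup.mem_sup_right hzk'
    have h4 : D h a ⊔ Subgroup.zpowers z ≤ D h a ⊔ D h (a * g) :=
      sup_le le_sup_left (by
        rw [Subgroup.zpowers_le]
        exact Subgroup.mem_sup_right hz)
    exact h4 h3
  have h3 := two_mul_index h2
  have h4 := index_pos (D h a ⊔ D h (a * k))
  have h5 : D h a ⊔ D h (a * k) = ⊤ := Subgroup.index_eq_one.1 (by omega)
  refine hcon ⟨a, ha, k, hk, fun l _ x _ => Or.inr ?_⟩
  have hx : x ∈ D h a ⊔ D h (a * k) := by rw [h5]; trivial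
  obtain ⟨v, hv, w, hw, e⟩ := Subgroup.mem_sup.1 hx
  exact ⟨v, w, hv, hw, e⟩

include h in
theorem stepTwo_of_sub (W : Subgroup S.G) (hW : W ≠ ⊤) (hWi : W.index ≤ 4)
    (hV : ∀ a ∈ W, a ∉ Core S → (D h a ⊓ W).index ≤ 4) (H : Subgroup S.G) (hH : H ≠ ⊤)
    (hI : ∀ a, IndexTwo S a → a ∈ H) : StepTwo S H := by
  by_contra hcon
  have hno : ∀ a : S.G, a ∉ H → D h a ⊔ H ≠ ⊤ := fun a ha htop =>
    hcon (stepTwo_of_step (step_of_sup h ha htop))
  have hcl : Closed S H := by
    refine ⟨hI, fun a ha => ?_⟩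
    by_contra haH
    refine hno a haH ?_
    rw [eq_top_iff]
    intro x _
    obtain ⟨v, k, hv, hk, e⟩ := ha x
    rw [← e]
    exact Subgroup.mul_mem_sup hv hk
  have hcore : Core S ≤ H := sInf_le hcl
  have hout : ∀ a : S.G, a ∉ H → ∀ g ∈ H, a * g ∉ H := by
    intro a ha g hg hc
    apply ha
    have := H.mul_mem hc (H.inv_mem hg)
    rwa [mul_inv_cancel_right] at this
  have hWH : ¬ W ≤ H := by
    intro hle
    refine hcon (stepTwo_of_step (step_of_index h H hH ?_))
    have h1 := Subgroup.index_dvd_of_le hle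
    have h3 := Nat.le_of_dvd (Nat.pos_of_ne_zero (index_pos W)) h1
    omega
  -- the value groups of the elements of `W` outside `H`
  have key : ∀ a ∈ W, a ∉ H → D h a ≤ W ∧ (D h a).index = 4 := by
    intro a haW haH
    have h4 : 4 ≤ (D h a).index := four_le h fun hc => haH (hI a hc)
    have h5 := hV a haW fun hc => haH (hcore hc)
    have h6 : D h a ⊓ W = D h a := by
      by_contra hne
      have := two_mul_index (lt_of_le_of_ne inf_le_left hne)
      omega
    refine ⟨inf_eq_left.1 h6, ?_⟩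
    rw [h6] at h5
    omega
  obtain ⟨a, haW, haH⟩ := SetLike.not_le_iff_exists.1 hWH
  obtain ⟨ha1, ha2⟩ := key a haW haH
  obtain ⟨g, hg, z, hz, hzn⟩ : ∃ g ∈ H, ∃ z, z ∈ D h (a * g) ∧ z ∉ D h a ⊔ H := by
    by_contra hc
    push Not at hc
    refine hcon (stepTwo_of_step ⟨a, haH, fun g hg x hx => ?_⟩)
    obtain ⟨v, hv, k, hk, e⟩ := Subgroup.mem_sup.1 (hc g hg x hx)
    exact ⟨v, k, hv, hk, e⟩
  have hzV : z ∉ D h a := fun hc => hzn (Subgroup.mem_sup_left hc)
  have hzH : z ∉ H := fun hc => hzn (Subgroup.mem_sup_right hc)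
  -- the products `V(a) V(ag)`
  have hend : (∀ k ∈ H, D h (a * k) ≤ D h a ⊔ D h (a * g)) → False := by
    intro hle
    refine hcon ⟨a, haH, g, hg, fun k hk x hx => Or.inr ?_⟩
    obtain ⟨v, hv, w, hw, e⟩ := Subgroup.mem_sup.1 (hle k hk hx)
    exact ⟨v, w, hv, hw, e⟩
  by_cases hgW : g ∈ W
  · have hag := key (a * g) (W.mul_mem haW hgW) (hout a haH g hg)
    have hzW : z ∈ W := hag.1 hz
    have hlt : D h a < W := lt_of_le_of_ne ha1 fun e => hzV (by rw [e]; exact hzW)
    have hi1 := two_mul_index hlt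
    have hi2 := two_mul_index (lt_top_iff_ne_top.2 hW)
    rw [Subgroup.index_top] at hi2
    by_cases hHW : H ≤ W
    · have hsup : D h a ⊔ D h (a * g) = W := by
        by_contra hne
        have h1 := two_mul_index (lt_of_le_of_ne (sup_le ha1 hag.1) hne)
        have h2 : D h a < D h a ⊔ D h (a * g) := lt_of_le_of_ne le_sup_left fun e => hzV (by
          rw [e]; exact Subgroup.mem_sup_right hz)
        have h3 := two_mul_index h2
        omega
      refine hend fun k hk => ?_
      rw [hsup]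
      exact (key (a * k) (W.mul_mem haW (hHW hk)) (hout a haH k hk)).1
    · have hq : ∀ b ∈ W, b ∉ H → g ∈ D h b := by
        intro b hbW hbH
        by_contra hgn
        obtain ⟨hb1, hb2⟩ := key b hbW hbH
        refine hno b hbH ?_
        have h1 := two_mul_index (lt_sup_zpowers hgn)
        have h2 : D h b ⊔ Subgroup.zpowers g ≤ W := sup_le hb1 (by rwa [Subgroup.zpowers_le])
        have h4 : D h b ⊔ Subgroup.zpowers g = W := by
          by_contra hne'
          have := two_mul_index (lt_of_le_of_ne h2 hne')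
          omega
        have h5 : W ≤ D h b ⊔ H := by
          rw [← h4]
          exact sup_le le_sup_left (by
            rw [Subgroup.zpowers_le]
            exact Subgroup.mem_sup_right hg)
        have h6 : W < D h b ⊔ H := lt_of_le_of_ne h5 fun e => hHW (by
          rw [e]; exact le_sup_right)
        have h7 := two_mul_index h6
        have h8 := index_pos (D h b ⊔ H)
        exact Subgroup.index_eq_one.1 (by omega)
      have h1 : S.q z g = S.zero := hq z hzW hzH
      apply hzV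
      show S.q a z = S.zero
      rw [h.qs2]
      have h2 : S.q z (a * g) = S.zero := by rw [h.qs2]; exact hz
      have h3 := p_mul h h2 h1
      rwa [mul_cancel h] at h3
  · have hgV : g ∉ D h a := fun hc => hgW (ha1 hc)
    have hgs : g ∈ D h a ⊔ D h (a * g) := by
      have e : g = (S.neg * a) * (S.neg * (a * g)) := by
        rw [mul_mul_mul_comm, h.exp2, one_mul, ← mul_assoc, h.exp2, one_mul]
      have h1 : (S.neg * a) * (S.neg * (a * g)) ∈ D h a ⊔ D h (a * g) :=
        Subgroup.mul_mem_sup (h.qs1 a) (h.qs1 (a * g))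
      rwa [← e] at h1
    have h1 := two_mul_index (lt_sup_zpowers hgV)
    have h2 : D h a ⊔ Subgroup.zpowers g < D h a ⊔ D h (a * g) := by
      refine lt_of_le_of_ne (sup_le le_sup_left (by rwa [Subgroup.zpowers_le])) fun e => hzn ?_
      have h3 : z ∈ D h a ⊔ Subgroup.zpowers g := by
        rw [e]; exact Subgroup.mem_sup_right hz
      have h4 : D h a ⊔ Subgroup.zpowers g ≤ D h a ⊔ H :=
        sup_le le_sup_left (by
          rw [Subgroup.zpowers_le]
          exact Subgroup.mem_sup_right hg)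
      exact h4 h3
    have h3 := two_mul_index h2
    have h4 := index_pos (D h a ⊔ D h (a * g))
    have h5 : D h a ⊔ D h (a * g) = ⊤ := Subgroup.index_eq_one.1 (by omega)
    exact hend fun k _ => by rw [h5]; exact le_top

include h in
theorem elem_of_sub (W : Subgroup S.G) (hWi : W.index ≤ 4)
    (hV : ∀ a ∈ W, a ∉ Core S → (D h a ⊓ W).index ≤ 4) : Elem S := by
  by_cases hW : W = ⊤
  · subst hW
    refine elem_of_step h fun H hH hI => stepTwo_of_four h (fun a ha => ?_) H hH hI
    have := hV a trivial ha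
    rwa [inf_top_eq] at this
  · exact elem_of_step h fun H hH hI => stepTwo_of_sub h W hW hWi hV H hH hI

omit [Finite S.G] in
include h in
lemma index_inf_le (W : Subgroup S.G) (hW : W.index ≤ 2) (a : S.G)
    (ha : ∀ x ∈ W, ∀ y ∈ W, S.q a x = S.zero ∨ S.q a y = S.zero ∨ S.q a (x * y) = S.zero) :
    (D h a ⊓ W).index ≤ 4 := by
  have h1 : (D h a ⊓ W).relIndex W ≤ 2 := by
    by_cases hle : W ≤ D h a
    · rw [inf_eq_right.2 hle, Subgroup.relIndex_self]
      norm_num
    · obtain ⟨t, htW, ht⟩ := SetLike.not_le_iff_exists.1 hle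
      refine le_of_eq ?_
      rw [Subgroup.relIndex, Subgroup.index_eq_two_iff]
      refine ⟨⟨t, htW⟩, fun b => ?_⟩
      have h4 := ha b.1 b.2 t htW
      have e1 : b * ⟨t, htW⟩ ∈ (D h a ⊓ W).subgroupOf W ↔ S.q a (b.1 * t) = S.zero := by
        rw [Subgroup.mem_subgroupOf]
        exact ⟨fun hx => hx.1, fun hx => ⟨hx, (b * ⟨t, htW⟩).2⟩⟩
      have e2 : b ∈ (D h a ⊓ W).subgroupOf W ↔ S.q a b.1 = S.zero := by
        rw [Subgroup.mem_subgroupOf]
        exact ⟨fun hx => hx.1, fun hx => ⟨hx, b.2⟩⟩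
      rw [e1, e2]
      by_cases hb : S.q a b.1 = S.zero
      · refine Or.inr ⟨hb, fun h5 => ht ?_⟩
        have h6 : S.q a (b.1 * (b.1 * t)) = S.zero := p_mul h hb h5
        rwa [← mul_assoc, h.exp2, one_mul] at h6
      · refine Or.inl ⟨?_, hb⟩
        rcases h4 with h4 | h4 | h4
        · exact absurd h4 hb
        · exact absurd h4 ht
        · exact h4
  have h2 := Subgroup.relIndex_mul_index (inf_le_right : D h a ⊓ W ≤ W)
  rw [← h2]
  calc (D h a ⊓ W).relIndex W * W.index ≤ 2 * 2 := Nat.mul_le_mul h1 hW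
    _ = 4 := rfl

end

end Pool.Agent.R19.QS
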